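import Mathlib

set_option autoImplicit false

namespace Pool.Agent.Results.MP_adc54a_gt.FiniteToOne

open Set

universe u v

/-- A space is orthocompact if every open cover has an open refinement (covering the space) all of
whose subfamilies have open intersection. -/
def Orthocompact (X : Type u) [TopologicalSpace X] : Prop :=
  ∀ 𝒰 : Set (Set X), (∀ U ∈ 𝒰, IsOpen U) → ⋃₀ 𝒰 = univ →
    ∃ 𝒱 : Set (Set X), (∀ V ∈ 𝒱, IsOpen V) ∧ ⋃₀ 𝒱 = univ ∧
      (∀ V ∈ 𝒱, ∃ U ∈ 𝒰, V ⊆ U) ∧ (∀ 𝒲 ⊆ 𝒱, IsOpen (⋂₀ 𝒲))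

/-- A space is countably metacompact if every countable open cover has a point-finite open
refinement (covering the space). -/
def CountablyMetacompact (X : Type u) [TopologicalSpace X] : Prop :=
  ∀ G : ℕ → Set X, (∀ n, IsOpen (G n)) → (⋃ n, G n) = univ →
    ∃ 𝒱 : Set (Set X), (∀ V ∈ 𝒱, IsOpen V) ∧ ⋃₀ 𝒱 = univ ∧
      (∀ V ∈ 𝒱, ∃ n, V ⊆ G n) ∧ (∀ x, {V ∈ 𝒱 | x ∈ V}.Finite)

/-- transitive open neighbourhood assignments -/
structure Trans {X : Type u} [TopologicalSpace X] (V : X → Set X) : Prop where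
  isOpen : ∀ x, IsOpen (V x)
  mem : ∀ x, x ∈ V x
  trans : ∀ x, ∀ u ∈ V x, V u ⊆ V x

lemma Orthocompact.exists_trans {X : Type u} [TopologicalSpace X] (h : Orthocompact X)
    (𝒰 : Set (Set X)) (ho : ∀ U ∈ 𝒰, IsOpen U) (hc : ∀ x, ∃ U ∈ 𝒰, x ∈ U) :
    ∃ V : X → Set X, Trans V ∧ ∀ x, ∃ U ∈ 𝒰, V x ⊆ U := by
  have hc' : ⋃₀ 𝒰 = univ := by
    ext x; simpa using hc x
  obtain ⟨𝒱, h1, h2, h3, h4⟩ := h 𝒰 ho hc'
  refine ⟨fun x => ⋂₀ {v ∈ 𝒱 | x ∈ v}, ⟨fun x => h4 _ (fun v hv => hv.1), ?_, ?_⟩, ?_⟩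
  · intro x v hv
    exact hv.2
  · intro x u hu t ht v hv
    exact ht v ⟨hv.1, hu v hv⟩
  · intro x
    have hx : x ∈ ⋃₀ 𝒱 := by rw [h2]; trivial
    obtain ⟨v, hv, hxv⟩ := hx
    obtain ⟨U, hU, hvU⟩ := h3 v hv
    exact ⟨U, hU, fun t ht => hvU (ht v ⟨hv, hxv⟩)⟩

variable {X : Type u} {Y : Type v} [TopologicalSpace X] [TopologicalSpace Y]

/-- the small image of the star of the fibre of `z` -/
def O (f : X → Y) (V : X → Set X) (z : Y) : Set Y :=
  {w | ∀ t, f t = w → ∃ x, f x = z ∧ t ∈ V x}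

lemma O_open {f : X → Y} (hf : IsClosedMap f) {V : X → Set X} (hV : Trans V) (z : Y) :
    IsOpen (O f V z) := by
  have : O f V z = (f '' (⋃ x ∈ f ⁻¹' {z}, V x)ᶜ)ᶜ := by
    ext w
    simp only [O, mem_setOf_eq, mem_compl_iff, mem_image, mem_iUnion, mem_preimage,
      mem_singleton_iff, exists_prop, not_exists, not_and]
    constructor
    · rintro h t ht hft
      obtain ⟨x, hx, htx⟩ := h t hft
      exact ht x hx htx
    · intro h t hft
      by_contra hcon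
      push Not at hcon
      exact h t hcon hft
  rw [this, isOpen_compl_iff]
  apply hf
  rw [isClosed_compl_iff]
  exact isOpen_biUnion fun x _ => hV.isOpen x

lemma O_mem {f : X → Y} {V : X → Set X} (hV : Trans V) (z : Y) : z ∈ O f V z :=
  fun t ht => ⟨t, ht, hV.mem t⟩

lemma O_trans {f : X → Y} {V : X → Set X} (hV : Trans V) {z w : Y} (h : w ∈ O f V z) :
    O f V w ⊆ O f V z := by
  intro s hs t ht
  obtain ⟨x, hx, htx⟩ := hs t ht
  obtain ⟨x', hx', hxx'⟩ := h x hx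
  exact ⟨x', hx', hV.trans x' x hxx' htx⟩

lemma O_mono {f : X → Y} {V V' : X → Set X} (h : ∀ x, V' x ⊆ V x) (z : Y) :
    O f V' z ⊆ O f V z := by
  intro s hs t ht
  obtain ⟨x, hx, htx⟩ := hs t ht
  exact ⟨x, hx, h x htx⟩

/-- Subsets of fibres of size at most `j` are coordinated. -/
def P (f : X → Y) (𝒰 : Set (Set Y)) (j : ℕ) (V : X → Set X) : Prop :=
  ∀ y : Y, ∀ S : Finset X, (∀ x ∈ S, f x = y) → S.card ≤ j →
    ∃ U ∈ 𝒰, y ∈ U ∧ ∀ x ∈ S, V x ⊆ f ⁻¹' U

lemma step {f : X → Y} (hf : Continuous f) (hcl : IsClosedMap f)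
    (hfin : ∀ y, (f ⁻¹' {y}).Finite) (hX : Orthocompact X)
    {𝒰 : Set (Set Y)} (ho : ∀ U ∈ 𝒰, IsOpen U) (hc : ∀ y, ∃ U ∈ 𝒰, y ∈ U)
    (j : ℕ) (V : X → Set X) (hV : Trans V) (hP : P f 𝒰 j V) :
    ∃ V' : X → Set X, Trans V' ∧ P f 𝒰 (j + 1) V' ∧ ∀ x, V' x ⊆ V x := by
  classical
  -- the choice of members of the cover
  have hch : ∀ (y : Y) (S : Finset X), ∃ U : Set Y, IsOpen U ∧ y ∈ U ∧
      ((∀ x ∈ S, f x = y) → S.card ≤ j → U ∈ 𝒰 ∧ ∀ x ∈ S, V x ⊆ f ⁻¹' U) := by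
    intro y S
    by_cases h : (∀ x ∈ S, f x = y) ∧ S.card ≤ j
    · obtain ⟨U, hU, hyU, hS⟩ := hP y S h.1 h.2
      exact ⟨U, ho U hU, hyU, fun _ _ => ⟨hU, hS⟩⟩
    · exact ⟨univ, isOpen_univ, trivial, fun h1 h2 => absurd ⟨h1, h2⟩ h⟩
  choose U hUo hUm hU using hch
  let Fy : Y → Finset X := fun y => (hfin y).toFinset
  have hFy : ∀ y x, x ∈ Fy y ↔ f x = y := by
    intro y x; simp [Fy]
  let G : Y → Set Y := fun y => O f V y ∩ ⋂ S ∈ (Fy y).powerset, U y S
  have hGo : ∀ y, IsOpen (G y) := fun y =>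
    (O_open hcl hV y).inter (isOpen_biInter_finset fun S _ => hUo y S)
  have hGm : ∀ y, y ∈ G y := by
    intro y
    refine ⟨O_mem hV y, ?_⟩
    simp only [mem_iInter]
    exact fun S _ => hUm y S
  obtain ⟨W, hW, hWG⟩ := hX.exists_trans (range fun y => f ⁻¹' (G y))
    (by rintro _ ⟨y, rfl⟩; exact (hGo y).preimage hf)
    (fun x => ⟨_, ⟨f x, rfl⟩, hGm (f x)⟩)
  refine ⟨fun x => V x ∩ W x, ⟨fun x => (hV.isOpen x).inter (hW.isOpen x),
    fun x => ⟨hV.mem x, hW.mem x⟩, ?_⟩, ?_, fun x => inter_subset_left⟩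
  · intro x u hu t ht
    exact ⟨hV.trans x u hu.1 ht.1, hW.trans x u hu.2 ht.2⟩
  · intro z T hT hcard
    rcases T.eq_empty_or_nonempty with rfl | ⟨t0, ht0⟩
    · obtain ⟨U0, hU0, hz⟩ := hc z
      exact ⟨U0, hU0, hz, by simp⟩
    · obtain ⟨_, ⟨y, rfl⟩, hWy⟩ := hWG t0
      have hzG : z ∈ G y := by
        have := hWy (hW.mem t0)
        simpa [hT t0 ht0] using this
      have hρ : ∀ t : X, ∃ x : X, f t = z → (f x = y ∧ t ∈ V x) := by
        intro t
        by_cases h : f t = z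
        · obtain ⟨x, hx⟩ := hzG.1 t h
          exact ⟨x, fun _ => hx⟩
        · exact ⟨t, fun h' => absurd h' h⟩
      choose ρ hρ using hρ
      let S : Finset X := (T.erase t0).image ρ
      have hS1 : ∀ x ∈ S, f x = y := by
        intro x hx
        obtain ⟨t, ht, rfl⟩ := Finset.mem_image.mp hx
        exact (hρ t (hT t (Finset.mem_of_mem_erase ht))).1
      have hS2 : S.card ≤ j := by
        calc S.card ≤ (T.erase t0).card := Finset.card_image_le
          _ = T.card - 1 := Finset.card_erase_of_mem ht0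
          _ ≤ j := by omega
      obtain ⟨hU𝒰, hSU⟩ := hU y S hS1 hS2
      have hGU : G y ⊆ U y S := by
        intro w hw
        have := hw.2
        simp only [mem_iInter] at this
        exact this S (Finset.mem_powerset.mpr fun x hx => (hFy y x).mpr (hS1 x hx))
      refine ⟨U y S, hU𝒰, hGU hzG, ?_⟩
      intro t ht
      by_cases htt : t = t0
      · subst htt
        intro w hw
        exact hGU (hWy hw.2)
      · have htz := hT t ht
        have h1 := hρ t htz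
        have h2 : ρ t ∈ S := Finset.mem_image.mpr ⟨t, Finset.mem_erase.mpr ⟨htt, ht⟩, rfl⟩
        intro w hw
        exact hSU _ h2 (hV.trans _ t h1.2 hw.1)

lemma exists_seq {f : X → Y} (hf : Continuous f) (hcl : IsClosedMap f)
    (hfin : ∀ y, (f ⁻¹' {y}).Finite) (hX : Orthocompact X)
    {𝒰 : Set (Set Y)} (ho : ∀ U ∈ 𝒰, IsOpen U) (hc : ∀ y, ∃ U ∈ 𝒰, y ∈ U) :
    ∃ V : ℕ → X → Set X, (∀ j, Trans (V j)) ∧ (∀ j, P f 𝒰 j (V j)) ∧
      ∀ j x, V (j + 1) x ⊆ V j x := by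
  classical
  have h0 : Trans (fun _ : X => (univ : Set X)) :=
    ⟨fun _ => isOpen_univ, fun _ => trivial, fun _ _ _ => subset_rfl⟩
  have hP0 : P f 𝒰 0 (fun _ : X => (univ : Set X)) := by
    intro y S _ hS
    obtain ⟨U, hU, hy⟩ := hc y
    have : S = ∅ := Finset.card_eq_zero.mp (Nat.le_zero.mp hS)
    subst this
    exact ⟨U, hU, hy, by simp⟩
  choose! nxt hn1 hn2 hn3 using
    fun (j : ℕ) (V : X → Set X) (h : Trans V) (h' : P f 𝒰 j V) =>
      step hf hcl hfin hX ho hc j V h h'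
  let V : ℕ → X → Set X := fun j => Nat.rec (fun _ => univ) (fun j V => nxt j V) j
  have key : ∀ j, Trans (V j) ∧ P f 𝒰 j (V j) := by
    intro j
    induction j with
    | zero => exact ⟨h0, hP0⟩
    | succ j ih => exact ⟨hn1 j _ ih.1 ih.2, hn2 j _ ih.1 ih.2⟩
  exact ⟨V, fun j => (key j).1, fun j => (key j).2, fun j x => hn3 j _ (key j).1 (key j).2 x⟩

/-- The combination step. -/
lemma combine {f : X → Y} (hcl : IsClosedMap f) (hsur : Function.Surjective f)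
    {𝒰 : Set (Set Y)} (V : ℕ → X → Set X) (hV : ∀ j, Trans (V j))
    (hdec : ∀ j x, V (j + 1) x ⊆ V j x)
    (i : Y → ℕ) (hi : ∀ z, ∃ U ∈ 𝒰, ∀ x, f x = z → V (i z) x ⊆ f ⁻¹' U)
    (E : ℕ → Set Y) (hE : ∀ k, IsOpen (E k)) (hEi : ∀ z, z ∈ E (i z))
    (hEf : ∀ t, ∃ M, ∀ k, t ∈ E k → k ≤ M) :
    ∃ 𝒱 : Set (Set Y), (∀ V ∈ 𝒱, IsOpen V) ∧ ⋃₀ 𝒱 = univ ∧
      (∀ V ∈ 𝒱, ∃ U ∈ 𝒰, V ⊆ U) ∧ (∀ 𝒲 ⊆ 𝒱, IsOpen (⋂₀ 𝒲)) := by
  classical
  have hmono : ∀ {a b : ℕ}, a ≤ b → ∀ x, V b x ⊆ V a x := by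
    intro a b hab x
    induction hab with
    | refl => exact subset_rfl
    | step _ ih => exact (hdec _ x).trans ih
  refine ⟨range fun z => O f (V (i z)) z ∩ E (i z), ?_, ?_, ?_, ?_⟩
  · rintro _ ⟨z, rfl⟩
    exact (O_open hcl (hV _) z).inter (hE _)
  · ext z
    simp only [mem_sUnion, mem_univ, iff_true]
    exact ⟨_, ⟨z, rfl⟩, O_mem (hV _) z, hEi z⟩
  · rintro _ ⟨z, rfl⟩
    obtain ⟨U, hU, hz⟩ := hi z
    refine ⟨U, hU, ?_⟩
    rintro w ⟨hw, -⟩
    obtain ⟨t, rfl⟩ := hsur w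
    obtain ⟨x, hx, htx⟩ := hw t rfl
    exact hz x hx htx
  · intro 𝒲 h𝒲
    rw [isOpen_iff_forall_mem_open]
    intro t ht
    obtain ⟨M, hM⟩ := hEf t
    refine ⟨O f (V M) t ∩ ⋂ k ∈ (Finset.range (M + 1)).filter (fun k => t ∈ E k), E k, ?_, ?_, ?_⟩
    · rintro w ⟨hw1, hw2⟩ W hW
      obtain ⟨z, rfl⟩ := h𝒲 hW
      have htz : t ∈ O f (V (i z)) z ∩ E (i z) := ht _ hW
      have hle := hM _ htz.2
      refine ⟨O_trans (hV _) htz.1 (O_mono (hmono hle) t hw1), ?_⟩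
      simp only [mem_iInter] at hw2
      exact hw2 (i z) (by simp [htz.2]; omega)
    · exact (O_open hcl (hV _) t).inter (isOpen_biInter_finset fun k _ => hE k)
    · refine ⟨O_mem (hV _) t, ?_⟩
      simp only [mem_iInter]
      intro k hk
      exact (Finset.mem_filter.mp hk).2

/-- **Theorem.** Let `f : X → Y` be a closed continuous surjection with finite fibres and let `X`
be orthocompact.  If the sizes of the fibres are bounded, or `X` is countably metacompact, or `Y`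
is countably metacompact, then `Y` is orthocompact.  No separation axioms are assumed. -/
theorem result (X : Type u) (Y : Type v) [TopologicalSpace X] [TopologicalSpace Y] (f : X → Y)
    (hf : Continuous f) (hcl : IsClosedMap f) (hsur : Function.Surjective f)
    (hfin : ∀ y : Y, (f ⁻¹' {y}).Finite) (hX : Orthocompact X)
    (h : (∃ n : ℕ, ∀ y : Y, (f ⁻¹' {y}).ncard ≤ n) ∨ CountablyMetacompact X ∨
      CountablyMetacompact Y) :
    Orthocompact Y := by
  classical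
  intro 𝒰 ho hc
  have hc' : ∀ y, ∃ U ∈ 𝒰, y ∈ U := by
    intro y
    have : y ∈ ⋃₀ 𝒰 := by rw [hc]; trivial
    simpa using this
  obtain ⟨V, hV, hP, hdec⟩ := exists_seq hf hcl hfin hX ho hc'
  have hmono : ∀ {a b : ℕ}, a ≤ b → ∀ x, V b x ⊆ V a x := by
    intro a b hab x
    induction hab with
    | refl => exact subset_rfl
    | step _ ih => exact (hdec _ x).trans ih
  -- the sets of points which are coordinated at stage k
  let D : ℕ → Set Y := fun k => {z | ∃ U ∈ 𝒰, ∀ x, f x = z → V k x ⊆ f ⁻¹' U}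
  have hDo : ∀ k, IsOpen (D k) := by
    intro k
    rw [isOpen_iff_forall_mem_open]
    rintro z ⟨U, hU, hz⟩
    refine ⟨O f (V k) z, ?_, O_open hcl (hV k) z, O_mem (hV k) z⟩
    intro w hw
    refine ⟨U, hU, ?_⟩
    intro t ht
    obtain ⟨x, hx, htx⟩ := hw t ht
    exact ((hV k).trans x t htx).trans (hz x hx)
  have hDcard : ∀ z, z ∈ D ((f ⁻¹' {z}).ncard) := by
    intro z
    obtain ⟨U, hU, -, h2⟩ := hP ((f ⁻¹' {z}).ncard) z (hfin z).toFinset
      (by intro x hx; simpa using hx)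
      (by rw [← Set.ncard_eq_toFinset_card _ (hfin z)])
    exact ⟨U, hU, fun x hx => h2 x (by simpa using hx)⟩
  have hDex : ∀ z, ∃ k, z ∈ D k := fun z => ⟨_, hDcard z⟩
  let i : Y → ℕ := fun z => Nat.find (hDex z)
  have hi : ∀ z, z ∈ D (i z) := fun z => Nat.find_spec (hDex z)
  have hile : ∀ z k, z ∈ D k → i z ≤ k := fun z k hk => Nat.find_min' (hDex z) hk
  rcases h with ⟨n, hn⟩ | hXm | hYm
  · refine combine hcl hsur V hV hdec i hi (fun k => if k ≤ n then univ else ∅) ?_ ?_ ?_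
    · intro k; split_ifs
      · exact isOpen_univ
      · exact isOpen_empty
    · intro z
      have : i z ≤ n := (hile z _ (hDcard z)).trans (hn z)
      simp [this]
    · intro t
      refine ⟨n, fun k hk => ?_⟩
      by_contra hcon
      simp [hcon] at hk
  · obtain ⟨𝒬, hQo, hQc, hQD, hQf⟩ := hXm (fun k => f ⁻¹' (D k))
      (fun k => (hDo k).preimage hf)
      (by
        ext x
        simp only [mem_iUnion, mem_univ, iff_true]
        exact hDex (f x))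
    -- E' k : union of members of 𝒬 not contained in earlier sets
    let E' : ℕ → Set X := fun k => ⋃₀ {Q ∈ 𝒬 | ∀ j, Q ⊆ f ⁻¹' (D j) → k ≤ j}
    have hE'o : ∀ k, IsOpen (E' k) := fun k => isOpen_sUnion fun Q hQ => hQo Q hQ.1
    refine combine hcl hsur V hV hdec i hi (fun k => {w | ∀ t, f t = w → t ∈ E' k}) ?_ ?_ ?_
    · intro k
      have : {w | ∀ t, f t = w → t ∈ E' k} = (f '' (E' k)ᶜ)ᶜ := by
        ext w
        simp only [mem_setOf_eq, mem_compl_iff, mem_image, not_exists, not_and]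
        constructor
        · intro h t ht hft
          exact ht (h t hft)
        · intro h t hft
          by_contra hcon
          exact h t hcon hft
      rw [this, isOpen_compl_iff]
      exact hcl _ (isClosed_compl_iff.mpr (hE'o k))
    · intro z t ht
      have : t ∈ ⋃₀ 𝒬 := by rw [hQc]; trivial
      obtain ⟨Q, hQ, htQ⟩ := this
      refine ⟨Q, ⟨hQ, ?_⟩, htQ⟩
      intro j hj
      apply hile
      have := hj htQ
      simpa [ht] using this
    · intro w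
      obtain ⟨t, rfl⟩ := hsur w
      -- bound over the finitely many members containing t
      choose! κ hκ using hQD
      refine ⟨(hQf t).toFinset.sup κ, ?_⟩
      intro k hk
      obtain ⟨Q, ⟨hQ, hQk⟩, htQ⟩ := hk t rfl
      have h1 := hQk (κ Q) (hκ Q hQ)
      refine h1.trans (Finset.le_sup (f := κ) ?_)
      simp [hQ, htQ]
  · obtain ⟨𝒬, hQo, hQc, hQD, hQf⟩ := hYm D hDo
      (by
        ext x
        simp only [mem_iUnion, mem_univ, iff_true]
        exact hDex x)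
    refine combine hcl hsur V hV hdec i hi
      (fun k => ⋃₀ {Q ∈ 𝒬 | ∀ j, Q ⊆ D j → k ≤ j}) ?_ ?_ ?_
    · exact fun k => isOpen_sUnion fun Q hQ => hQo Q hQ.1
    · intro z
      have : z ∈ ⋃₀ 𝒬 := by rw [hQc]; trivial
      obtain ⟨Q, hQ, hzQ⟩ := this
      exact ⟨Q, ⟨hQ, fun j hj => hile z j (hj hzQ)⟩, hzQ⟩
    · intro t
      choose! κ hκ using hQD
      refine ⟨(hQf t).toFinset.sup κ, ?_⟩
      intro k hk
      obtain ⟨Q, ⟨hQ, hQk⟩, htQ⟩ := hk
      have h1 := hQk (κ Q) (hκ Q hQ)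
      refine h1.trans (Finset.le_sup (f := κ) ?_)
      simp [hQ, htQ]

end Pool.Agent.Results.MP_adc54a_gt.FiniteToOne
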